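import Pool.Agent.Work.MP_b7dc8a_pr.F.Main3

set_option autoImplicit false

namespace Pool.Agent.Results.MP_b7dc8a_pr.GiantCLT

open Finset Filter Topology

/-- The hypercube graph `Q_m` on the vertex set `{0,1}^m`: two vertices are adjacent when they
differ in exactly one coordinate. -/
def hypercube (m : ℕ) : SimpleGraph (Fin m → Bool) where
  Adj x y := hammingDist x y = 1
  symm := ⟨fun x y h => by rw [hammingDist_comm]; exact h⟩
  loopless := ⟨fun x h => by rw [hammingDist_self] at h; exact absurd h (by norm_num)⟩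

instance (m : ℕ) : DecidableRel (hypercube m).Adj := fun x y =>
  inferInstanceAs (Decidable (hammingDist x y = 1))

/-- Bond percolation on `Q_m` with parameter `p`: the expectation of `F ω`, where `ω` is the random
set of kept edges, in which each edge of `Q_m` lies independently with probability `p`. -/
noncomputable def expect (m : ℕ) (p : ℝ) (F : Finset (Sym2 (Fin m → Bool)) → ℝ) : ℝ :=
  ∑ ω ∈ (hypercube m).edgeFinset.powerset,
    p ^ ω.card * (1 - p) ^ ((hypercube m).edgeFinset.card - ω.card) * F ω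

open Classical in
/-- The probability that the set `ω` of kept edges has the property `A`. -/
noncomputable def prob (m : ℕ) (p : ℝ) (A : Finset (Sym2 (Fin m → Bool)) → Prop) : ℝ :=
  expect m p fun ω => if A ω then 1 else 0

/-- The number of vertices of the cluster of `x`, the connected component of `x` in the graph of
kept edges. -/
noncomputable def clusterSize {m : ℕ} (ω : Finset (Sym2 (Fin m → Bool))) (x : Fin m → Bool) : ℕ :=
  {y | (SimpleGraph.fromEdgeSet (ω : Set (Sym2 (Fin m → Bool)))).Reachable x y}.ncard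

/-- The number of vertices of a cluster of maximal size. -/
noncomputable def maxCluster {m : ℕ} (ω : Finset (Sym2 (Fin m → Bool))) : ℕ :=
  univ.sup fun x => clusterSize ω x

/-- Central limit theorem for the size of the largest cluster `C_1` of bond percolation on the
hypercube `Q_m` at `p = p_c (1 + ε_m)`, in the whole supercritical regime: for every sequence
`ε_m → 0` with `ε_m^3 V → ∞`. Here `V = 2^m` and `p_c = p_c(m)` is given by
`E |C(0)| = lam * V^(1/3)`. -/
theorem result (lam : ℝ) (hlam : 0 < lam) (pc ε : ℕ → ℝ)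
    (hpc : ∀ᶠ m in atTop, 0 ≤ pc m ∧ pc m ≤ 1 ∧
      expect m (pc m) (fun ω => (clusterSize ω (fun _ => false) : ℝ)) =
        lam * ((2 : ℝ) ^ m) ^ (1 / 3 : ℝ))
    (hε0 : Tendsto ε atTop (𝓝 0))
    (hε : Tendsto (fun m : ℕ => ε m ^ 3 * 2 ^ m) atTop atTop) :
    ∃ a b : ℕ → ℝ, (∀ m, 0 < b m) ∧ ∀ x : ℝ,
      Tendsto (fun m => prob m (pc m * (1 + ε m)) fun ω => ((maxCluster ω : ℝ) - a m) / b m ≤ x)
        atTop (𝓝 ((ProbabilityTheory.gaussianReal 0 1).real (Set.Iic x))) := by
  have hcl : ∀ (m : ℕ) (ω : Finset (Sym2 (Fin m → Bool))) (x : Fin m → Bool),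
      clusterSize ω x = (Pool.Agent.Work.MP_b7dc8a_pr.cl ω x).card := by
    intro m ω x
    unfold clusterSize Pool.Agent.Work.MP_b7dc8a_pr.cl
    rw [← Set.ncard_coe_finset]
    congr 1
    ext y
    simp
  have hmax : ∀ (m : ℕ) (ω : Finset (Sym2 (Fin m → Bool))),
      maxCluster ω = Pool.Agent.Work.MP_b7dc8a_pr.largest ω := by
    intro m ω
    unfold maxCluster Pool.Agent.Work.MP_b7dc8a_pr.largest
    simp only [hcl]
  have hE : ∀ (m : ℕ) (p : ℝ) (F : Finset (Sym2 (Fin m → Bool)) → ℝ),
      expect m p F = Pool.Agent.Work.MP_b7dc8a_pr.Ex (Pool.Agent.Work.MP_b7dc8a_pr.cubeE m) p F := by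
    intro m p F
    rfl
  obtain ⟨a, b, hb, h⟩ := Pool.Agent.Work.MP_b7dc8a_pr.main3 lam hlam pc ε
    (by simpa only [hE, hcl] using hpc) hε0 hε
  refine ⟨a, b, hb, fun x => ?_⟩
  refine (h x).congr fun m => ?_
  unfold prob
  rw [hE]
  simp only [hmax, Pool.Agent.Work.MP_b7dc8a_pr.ind]

end Pool.Agent.Results.MP_b7dc8a_pr.GiantCLT
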